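import Pool.Agent.R951.Stack.Law

open MeasureTheory Set Filter

namespace Pool.Agent.Results.MP_c59c01_pr.NotSharp

/-- Vertices of `ℤ² = ℤ^{d-1} × ℤ` with `d = 2`; the second coordinate is the stacking direction. -/
abbrev Vertex := ℤ × ℤ

/-- the nearest neighbour graph on `ℤ²` -/
def grid : SimpleGraph Vertex where
  Adj u v := |u.1 - v.1| + |u.2 - v.2| = 1
  symm := ⟨fun u v h => by
    rw [abs_sub_comm v.1, abs_sub_comm v.2]; exact h⟩
  loopless := ⟨fun u h => by simp at h⟩

/-- The open subgraph of a configuration `ω`: grid edges `uv` with `ω s(u,v) = true`. -/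
def openGraph (ω : Sym2 Vertex → Bool) : SimpleGraph Vertex where
  Adj u v := grid.Adj u v ∧ ω s(u, v) = true
  symm := ⟨fun u v h => ⟨h.1.symm, by rw [Sym2.eq_swap]; exact h.2⟩⟩
  loopless := ⟨fun u h => grid.loopless.irrefl u h.1⟩

/-- The event that the origin lies in an infinite open cluster. -/
def Percolates : Set (Sym2 Vertex → Bool) :=
  {ω | {v | (openGraph ω).Reachable 0 v}.Infinite}

/-- one edge is open (`true`) with probability `p` -/
noncomputable def bernoulli (p : unitInterval) : Measure Bool :=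
  ENNReal.ofReal p • Measure.dirac true + ENNReal.ofReal (1 - p) • Measure.dirac false

instance (p : unitInterval) : IsProbabilityMeasure (bernoulli p) :=
  inferInstanceAs (IsProbabilityMeasure (Pool.Agent.R951.Stack.bern p))

/-- Independent bond percolation in which the edge `e` is open with probability `r e`
(the coordinates of unordered pairs which are not edges of the grid play no role). -/
noncomputable def percolation (r : Sym2 Vertex → unitInterval) : Measure (Sym2 Vertex → Bool) :=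
  Measure.infinitePi fun e => bernoulli (r e)

/-- `p_c(ℤ²)`, the supremum of the `p` at which the homogeneous model does not percolate. -/
noncomputable def pc : ℝ :=
  sSup {p : ℝ | ∃ hp : p ∈ Icc (0:ℝ) 1, percolation (fun _ => ⟨p, hp⟩) Percolates = 0}

/-- `Z(0) = 0` and `Z(n) = X_0 + 2 ∑_{i=1}^{n-1} X_i + X_n` for `n ≥ 1`. -/
def ZNat (X : ℤ → ℕ) (n : ℕ) : ℤ :=
  if n = 0 then 0 else (X 0 : ℤ) + 2 * ∑ i ∈ Finset.Ico 1 n, (X i : ℤ) + X n

/-- `Z(n)`, with `Z(-n) = -X_0 - 2 ∑_{i=1}^{n-1} X_{-i} - X_{-n}` for `n ≥ 1`. -/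
def Z (X : ℤ → ℕ) (n : ℤ) : ℤ :=
  if 0 ≤ n then ZNat X n.toNat else - ZNat (fun i => X (-i)) (-n).toNat

/-- The box `B(a, r) = {x : |x| ≤ r} × ([a - r, a + r] ∩ ℤ)`. -/
def box (a : ℤ) (r : ℕ) : Set Vertex := {v | |v.1| ≤ r ∧ a - r ≤ v.2 ∧ v.2 ≤ a + r}

/-- The region `R(Λ) = ⋃ₙ B(Z(n), X_n)`. -/
def region (X : ℤ → ℕ) : Set Vertex := ⋃ n : ℤ, box (Z X n) (X n)

open Classical in
/-- The edge probabilities of the Stack Model in the environment `X`. -/
noncomputable def edgeProb (X : ℤ → ℕ) (p q : unitInterval) : Sym2 Vertex → unitInterval :=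
  fun e => if ∀ x ∈ e, x ∈ region X then q else p

/-- The quenched percolation probability `θ^Λ(p, q)` of the Stack Model for `d = 2`. -/
noncomputable def theta (X : ℤ → ℕ) (p q : unitInterval) : ENNReal :=
  percolation (edgeProb X p q) Percolates

/-- There is a law of the radii with infinite logarithmic moment and a `p` in `(0, p_c)` such that
for every `q < 1` the percolation probability vanishes in almost every environment. -/
theorem result :
    ∃ (ρ : Measure ℕ) (_ : IsProbabilityMeasure ρ), ρ {0} = 0 ∧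
      ∫⁻ x, ENNReal.ofReal (Real.log x) ∂ρ = ⊤ ∧
      ∃ p : unitInterval, 0 < (p:ℝ) ∧ (p:ℝ) < pc ∧
        ∀ q : unitInterval, (q:ℝ) < 1 →
          ∀ᵐ X ∂(Measure.infinitePi fun _ : ℤ => ρ), theta X p q = 0 := by
  refine ⟨Pool.Agent.R951.Stack.rho, inferInstance,
    Pool.Agent.R951.Stack.law_zero (Pool.Agent.R951.Stack.ff_pos _),
    Pool.Agent.R951.Stack.log_infinite Pool.Agent.R951.Stack.rseq_mono,
    ⟨1/8, by norm_num, by norm_num⟩, by norm_num, ?_, fun q hq => ?_⟩
  · have h5 : (1/5 : ℝ) ∈ {p : ℝ | ∃ hp : p ∈ Icc (0:ℝ) 1,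
        percolation (fun _ => ⟨p, hp⟩) Percolates = 0} :=
      ⟨⟨by norm_num, by norm_num⟩, Pool.Agent.R951.Stack.hom_zero (by norm_num)⟩
    have hb : BddAbove {p : ℝ | ∃ hp : p ∈ Icc (0:ℝ) 1,
        percolation (fun _ => ⟨p, hp⟩) Percolates = 0} := ⟨1, fun x hx => hx.choose.2⟩
    have := le_csSup hb h5
    unfold pc
    refine lt_of_lt_of_le ?_ this
    norm_num
  · exact Pool.Agent.R951.Stack.main (p := ⟨1/8, by norm_num, by norm_num⟩) (le_of_eq (by norm_num)) hq

end Pool.Agent.Results.MP_c59c01_pr.NotSharp
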